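import Mathlib
import Pool.Agent.MP_cba161_mp.Mg.Config

set_option autoImplicit false

open Pool.Agent.MP_cba161_mp

namespace Pool.Agent.Results.MP_cba161_mp.TwoElectrons

/-- A molecule with two electrons and total nuclear charge at least `2` whose electronic energy
(the infimum of the energy form over normalised, smooth, compactly supported, antisymmetric
spin-1/2 wave functions) is strictly smaller at a larger dilation factor. -/
theorem result :
    ∃ (K : ℕ) (z : Fin K → ℝ) (R : Fin K → EuclideanSpace ℝ (Fin 3)) (S : ℝ → Set ℝ),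
      (∀ j, 0 < z j) ∧ Function.Injective R ∧ (2 : ℝ) ≤ ∑ j, z j ∧
      (∀ l : ℝ, S l = {E : ℝ | ∃ ψ : (Fin 2 → EuclideanSpace ℝ (Fin 3)) → (Fin 2 → Fin 2) → ℂ,
          (∀ σ : Fin 2 → Fin 2, ContDiff ℝ (⊤ : ℕ∞) (fun y => ψ y σ)) ∧
          (∀ σ : Fin 2 → Fin 2, HasCompactSupport (fun y => ψ y σ)) ∧
          (∀ π : Equiv.Perm (Fin 2), ∀ x σ,
              ψ (fun i => x (π i)) (fun i => σ (π i)) = ((Equiv.Perm.sign π : ℤ) : ℂ) * ψ x σ) ∧
          (∑ σ : Fin 2 → Fin 2, ∫ x, ‖ψ x σ‖ ^ 2) = 1 ∧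
          E = ∑ σ : Fin 2 → Fin 2, ∫ x,
              ((∑ i, ∑ k : Fin 3,
                  ‖fderiv ℝ (fun y => ψ y σ) x
                      (Pi.single i (EuclideanSpace.single k (1 : ℝ)))‖ ^ 2)
                + (1 / dist (x 0) (x 1)
                    - ∑ i, ∑ j, z j / dist (x i) (l • R j)) * ‖ψ x σ‖ ^ 2)}) ∧
      (∀ l : ℝ, (S l).Nonempty ∧ BddBelow (S l)) ∧
      ∃ l l' : ℝ, 0 < l ∧ l < l' ∧ sInf (S l') < sInf (S l) := by
  have hM : ((200000000 : ℕ) : ℝ) = 2 * 10 ^ 8 := by norm_num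
  generalize (200000000 : ℕ) = M at hM
  have hz : ∀ j : Fin (M + 2), 0 ≤ ww j := fun j => (ww_pos j).le
  have hmono := not_monotone M hM
  refine ⟨M + 2, fun j => ww j, fun j => tt j • e0,
    fun l => eset (fun j : Fin (M + 2) => ww j) fun j => l • tt j • e0,
    fun j => ww_pos j, RR_injective M, ?_, fun l => ?_, fun l => ⟨?_, bddBelow_eset hz _⟩, ?_⟩
  · rw [sum_ww, hM]; norm_num
  · have h0 : Finset.Ioi (0 : Fin 2) = {1} := by decide
    have h1 : Finset.Ioi (1 : Fin 2) = ∅ := by decide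
    have h2 : ∀ x : Conf 2, ∑ i, ∑ i' ∈ Finset.Ioi i, 1 / dist (x i) (x i')
        = 1 / dist (x 0) (x 1) := fun x => by
      simp only [Fin.sum_univ_two, h0, h1, Finset.sum_singleton, Finset.sum_empty, add_zero]
    simp only [eset, dens, h2]
    rfl
  · by_contra hempty
    apply hmono
    have hall : ∀ l' : ℝ, eset (fun j : Fin (M + 2) => ww j) (fun j => l' • tt j • e0) = ∅ := by
      intro l'
      rw [Set.eq_empty_iff_forall_notMem]
      rintro E ⟨ψ, a, b, c, d, -⟩
      exact hempty ⟨_, ψ, a, b, c, d, rfl⟩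
    intro a _ b _ _
    simp only [hall, le_refl]
  · by_contra hcon
    apply hmono
    intro a ha b hb hab
    rcases hab.eq_or_lt with rfl | hlt
    · exact le_rfl
    · by_contra hlt'
      exact hcon ⟨a, b, ha, hlt, not_le.mp hlt'⟩

end Pool.Agent.Results.MP_cba161_mp.TwoElectrons
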